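import Mathlib

set_option autoImplicit false

namespace Pool.Agent.Results.MP_267b52_gt.DenseLine

open Filter Topology Set Metric Real
open scoped Manifold ContDiff MatrixOrder

abbrev E (m : ℕ) := EuclideanSpace ℝ (Fin m)

/-- the flat torus -/
abbrev T := UnitAddCircle × UnitAddCircle

/-- its universal covering, a local isometry from the Euclidean plane -/
def proj (p : ℝ × ℝ) : T := (p.1, p.2)

/-- `u` is killed at `y` by the operator with coefficients `a`, `b` -/
def Kills {m : ℕ} (a : Matrix (Fin m) (Fin m) ℝ) (b : E m) (u : E m → ℝ) (y : E m) : Prop :=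
  ∑ i, ∑ j, a i j * fderiv ℝ (fderiv ℝ u) y (EuclideanSpace.single i 1) (EuclideanSpace.single j 1) +
    fderiv ℝ u y b = 0

/-- in a chart around each point, `φ` lifts to a pair of solutions of an elliptic equation -/
def Harm (m : ℕ) {M : Type} [TopologicalSpace M] [ChartedSpace (E m) M] (φ : M → T) : Prop :=
  ∀ x : M, ∃ (U : Set (E m)) (u v : E m → ℝ) (a : E m → Matrix (Fin m) (Fin m) ℝ) (b : E m → E m),
    IsOpen U ∧ chartAt (E m) x x ∈ U ∧ U ⊆ (chartAt (E m) x).target ∧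
    ContDiffOn ℝ 2 u U ∧ ContDiffOn ℝ 2 v U ∧ ContinuousOn a U ∧ ContinuousOn b U ∧
    ∀ y ∈ U, φ ((chartAt (E m) x).symm y) = proj (u y, v y) ∧ (a y).PosDef ∧
      Kills (a y) (b y) u y ∧ Kills (a y) (b y) v y

/-- property (i) -/
def HasConvex (V : Set T) : Prop :=
  ∃ (W : Set T) (f : T → ℝ), IsOpen W ∧ V ⊆ W ∧ ContDiffOn ℝ 2 (f ∘ proj) (proj ⁻¹' W) ∧
    ∀ p ∈ proj ⁻¹' W, ∀ v ≠ 0, 0 < fderiv ℝ (fderiv ℝ (f ∘ proj)) p v v

lemma line {F : Type} [NormedAddCommGroup F] [NormedSpace ℝ F] {w : F → ℝ} (q v : F) (s : ℝ)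
    (hw : ContDiffAt ℝ 2 w (q + s • v)) :
    (∀ᶠ t in 𝓝 s, HasDerivAt (fun t : ℝ => w (q + t • v)) (fderiv ℝ w (q + t • v) v) t) ∧
    HasDerivAt (fun t : ℝ => fderiv ℝ w (q + t • v) v) (fderiv ℝ (fderiv ℝ w) (q + s • v) v v) s := by
  have l : ∀ t : ℝ, HasDerivAt (fun t : ℝ => q + t • v) v t := fun t => by
    simpa using ((hasDerivAt_id t).smul_const v).const_add q
  constructor
  · filter_upwards [(l s).continuousAt.eventually (hw.eventually (by simp))] with t ht
    exact (ht.differentiableAt (by simp)).hasFDerivAt.comp_hasDerivAt t (l t)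
  · simpa using (((hw.fderiv_right (m := 1) le_rfl).differentiableAt (by simp)).hasFDerivAt.comp_hasDerivAt
      s (l s)).clm_apply (hasDerivAt_const s v)

lemma test {g g' : ℝ → ℝ} {s : ℝ} (h1 : ∀ᶠ t in 𝓝 0, HasDerivAt g (g' t) t) (h2 : HasDerivAt g' s 0)
    (hm : IsLocalMax g 0) : g' 0 = 0 ∧ s ≤ 0 := by
  have e : deriv g =ᶠ[𝓝 0] g' := h1.mono fun t ht => ht.deriv
  refine ⟨hm.hasDerivAt_eq_zero h1.self_of_nhds, not_lt.1 fun hs => ?_⟩
  have h3 := isLocalMin_of_deriv_deriv_pos (f := g) (by rwa [e.deriv_eq, h2.deriv]) hm.deriv_eq_zero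
    h1.self_of_nhds.continuousAt
  have h4 : g =ᶠ[𝓝 0] fun _ => g 0 := (hm.and h3).mono fun t ht => ht.1.antisymm ht.2
  have := h4.deriv.deriv_eq
  rw [e.deriv_eq, h2.deriv] at this
  simp [hs.ne'] at this

variable {m : ℕ}

lemma trace {a : Matrix (Fin m) (Fin m) ℝ} (ha : a.PosDef) (β : E m →L[ℝ] E m →L[ℝ] ℝ)
    (h : ∀ v, β v v ≤ 0) :
    ∑ i, ∑ j, a i j * β (EuclideanSpace.single i 1) (EuclideanSpace.single j 1) ≤ 0 := by
  obtain ⟨B, rfl⟩ := CStarAlgebra.nonneg_iff_eq_star_mul_self.mp ha.posSemidef.nonneg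
  refine le_trans (le_of_eq ?_)
    (Finset.sum_nonpos fun k (_ : k ∈ Finset.univ) => h (∑ i, B k i • EuclideanSpace.single i 1))
  simp only [Matrix.mul_apply, Finset.sum_mul, map_sum, map_smul, sum_apply,
    smul_apply, smul_eq_mul, Finset.mul_sum, Matrix.star_apply, star_trivial]
  rw [Finset.sum_comm]
  simp only [Finset.sum_comm (s := (Finset.univ : Finset (Fin m))) (f := fun i k => B k i * B k _ * _)]
  rw [Finset.sum_comm]
  refine Finset.sum_congr rfl fun k _ => Finset.sum_congr rfl fun i _ =>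
    Finset.sum_congr rfl fun j _ => by ring

lemma hopf {U : Set (E m)} (hU : IsOpen U) {u : E m → ℝ} {a : E m → Matrix (Fin m) (Fin m) ℝ}
    {b : E m → E m} (hu : ContDiffOn ℝ 2 u U) (ha : ContinuousOn a U) (hb : ContinuousOn b U)
    (h : ∀ y ∈ U, (a y).PosDef ∧ Kills (a y) (b y) u y) {x : E m} (hx : x ∈ U)
    (hm : ∀ y ∈ U, u y ≤ u x) : ∀ᶠ y in 𝓝 x, u y = u x := by
  obtain ⟨r, r0, hr⟩ := nhds_basis_closedBall.mem_iff.1 (hU.mem_nhds hx)
  filter_upwards [ball_mem_nhds x (half_pos r0)] with y hy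
  by_contra hne
  have hc := hu.continuousOn
  have cZ : IsCompact (closedBall x r ∩ u ⁻¹' {u x}) := (isCompact_closedBall x r).of_isClosed_subset
    ((hc.mono hr).preimage_isClosed_of_isClosed isClosed_closedBall isClosed_singleton)
    inter_subset_left
  have xZ : x ∈ closedBall x r ∩ u ⁻¹' {u x} := ⟨mem_closedBall_self r0.le, rfl⟩
  obtain ⟨p, ⟨p1, p2⟩, hp⟩ := cZ.exists_infDist_eq_dist ⟨x, xZ⟩ y
  have p3 : dist y p < r / 2 := hp ▸ (infDist_le_dist_of_mem xZ).trans_lt hy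
  obtain ⟨d, rfl⟩ : ∃ d : E m, y = p - (2 : ℝ) • d := ⟨(1 / 2 : ℝ) • (p - y), by simp [smul_smul]⟩
  have d0 : d ≠ 0 := by rintro rfl; exact hne (by simpa using p2)
  have lt : ∀ z, ‖z - (p - d)‖ ≤ ‖d‖ → z ≠ p → z ∈ U ∧ u z < u x := fun z h1 h2 => by
    have e : dist (p - (2 : ℝ) • d) z < dist (p - (2 : ℝ) • d) p := by
      have := parallelogram_law_with_norm ℝ (z - (p - d)) d
      rw [dist_comm, dist_eq_norm, dist_eq_norm, show z - (p - (2 : ℝ) • d) = z - (p - d) + d by
        rw [two_smul]; abel, sub_sub_cancel_left, norm_neg, norm_smul, Real.norm_two]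
      rw [show z - (p - d) - d = z - p by abel] at this
      refine abs_lt_of_sq_lt_sq' ?_ (by positivity) |>.2
      nlinarith [norm_pos_iff.2 (sub_ne_zero.2 h2), norm_nonneg (z - (p - d))]
    have z1 : z ∈ closedBall x r := by
      have := dist_triangle_left z x (p - (2 : ℝ) • d)
      rw [mem_ball] at hy; rw [mem_closedBall]; linarith
    exact ⟨hr z1, lt_of_le_of_ne (hm z (hr z1)) fun e' =>
      (infDist_le_dist_of_mem (show z ∈ closedBall x r ∩ u ⁻¹' {u x} from ⟨z1, e'⟩)).not_gt (hp ▸ e)⟩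
  let Q : ℝ → E m → ℝ := fun α z => ∑ i, ∑ j, a z i j * (4 * α ^ 2 * ((z - (p - d)) i * (z - (p - d)) j)
    - 2 * α * (if i = j then 1 else 0)) - 2 * α * inner ℝ (z - (p - d)) (b z)
  obtain ⟨α, α0, hα⟩ : ∃ α, 0 < α ∧ 0 < Q α p := by
    have pos := (h p (hr p1)).1.dotProduct_mulVec_pos (x := d.ofLp) (by simpa using d0)
    have : ∀ α, Q α p = 2 * α * (2 * α * (star d.ofLp ⬝ᵥ (a p).mulVec d.ofLp) -
        (∑ i, a p i i + inner ℝ d (b p))) := fun α => by
      simp only [Q, sub_sub_cancel, mul_sub, Finset.sum_sub_distrib, mul_ite, mul_one, mul_zero,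
        Finset.sum_ite_eq, Finset.mem_univ, if_true, dotProduct, Matrix.mulVec, Finset.mul_sum,
        sub_add_eq_sub_sub, star_trivial]
      congr 2
      · exact Finset.sum_congr rfl fun i _ => Finset.sum_congr rfl fun j _ => by ring
      · exact Finset.sum_congr rfl fun i _ => by ring
    obtain ⟨α, h1, h2⟩ := ((eventually_gt_atTop 0).and (((tendsto_id.const_mul_atTop two_pos).atTop_mul_const
      pos).eventually_gt_atTop (∑ i, a p i i + inner ℝ d (b p)))).exists
    exact ⟨α, h1, this α ▸ mul_pos (by positivity) (sub_pos.2 h2)⟩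
  have pU := hU.mem_nhds (hr p1)
  have cQ : ContinuousAt (Q α) p := by
    have := ha.continuousAt pU
    have := hb.continuousAt pU
    have : ∀ i j, ContinuousAt (fun z => a z i j) p := fun i j =>
      ((continuous_apply_apply i j).continuousAt).comp (ha.continuousAt pU)
    fun_prop
  obtain ⟨δ, δ0, hδ⟩ := nhds_basis_closedBall.mem_iff.1
    (Filter.inter_mem pU (cQ.eventually (lt_mem_nhds hα)))
  obtain ⟨ε, ε0, hε⟩ : ∃ ε > 0, ∀ z ∈ sphere p δ ∩ closedBall (p - d) ‖d‖, u z + ε < u x := by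
    have k : ∀ z ∈ sphere p δ ∩ closedBall (p - d) ‖d‖, z ∈ U ∧ u z < u x := fun z hz =>
      lt z (mem_closedBall_iff_norm.1 hz.2) (by rintro rfl; simpa [δ0.ne] using hz.1)
    rcases (sphere p δ ∩ closedBall (p - d) ‖d‖).eq_empty_or_nonempty with e | e
    · exact ⟨1, one_pos, by simp [e]⟩
    obtain ⟨z, h1, h2⟩ := ((isCompact_sphere p δ).inter_right isClosed_closedBall).exists_isMaxOn e
      (hc.mono fun z hz => (k z hz).1)
    exact ⟨(u x - u z) / 2, by linarith [(k z h1).2], fun w hw => by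
      linarith [(k z h1).2, show u w ≤ u z from h2 hw]⟩
  let w : E m → ℝ := fun z => u z + ε * (exp (-α * ‖z - (p - d)‖ ^ 2) - exp (-α * ‖d‖ ^ 2))
  obtain ⟨q, q1, q2⟩ := (isCompact_closedBall p δ).exists_isMaxOn ⟨p, mem_closedBall_self δ0.le⟩
    (f := w) ((hc.mono fun z hz => (hδ hz).1).add (by fun_prop))
  have q3 : u x ≤ w q := le_trans (le_of_eq (by simp [w, show u p = u x from p2]))
    (q2 (mem_closedBall_self δ0.le))
  have q4 : q ∈ ball p δ := lt_of_le_of_ne q1 fun e => by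
    by_cases h1 : ‖q - (p - d)‖ ≤ ‖d‖
    · have := hε q ⟨e, mem_closedBall_iff_norm.2 h1⟩
      have h2 : exp (-α * ‖q - (p - d)‖ ^ 2) ≤ 1 := exp_le_one_iff.2 (by
        nlinarith [sq_nonneg ‖q - (p - d)‖])
      simp only [w] at q3
      nlinarith [exp_pos (-α * ‖d‖ ^ 2)]
    · have h2 : exp (-α * ‖q - (p - d)‖ ^ 2) < exp (-α * ‖d‖ ^ 2) := exp_lt_exp.2 (by
        nlinarith [pow_lt_pow_left₀ (not_le.1 h1) (norm_nonneg _) two_ne_zero])
      simp only [w] at q3
      nlinarith [hm q (hδ q1).1]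
  have q5 : IsLocalMax w q := q2.isLocalMax (mem_of_superset (isOpen_ball.mem_nhds q4) ball_subset_closedBall)
  set c := q - (p - d)
  have key : ∀ v : E m, fderiv ℝ u q v + ε * (exp (-α * ‖c‖ ^ 2) * (-α * (2 * inner ℝ c v))) = 0 ∧
      fderiv ℝ (fderiv ℝ u) q v v + ε * (exp (-α * ‖c‖ ^ 2) *
        (4 * α ^ 2 * (inner ℝ c v * inner ℝ c v) - 2 * α * inner ℝ v v)) ≤ 0 := fun v => by
    obtain ⟨l1, l2⟩ := line q v 0 (by simpa using hu.contDiffAt (hU.mem_nhds (hδ q1).1))
    have e : ∀ t : ℝ, ‖q + t • v - (p - d)‖ ^ 2 = ‖c‖ ^ 2 + 2 * inner ℝ c v * t + inner ℝ v v * t ^ 2 :=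
      fun t => by
        rw [add_sub_right_comm, norm_add_sq_real, inner_smul_right, norm_smul, mul_pow,
          real_inner_self_eq_norm_sq, Real.norm_eq_abs, sq_abs]; ring
    have d1 : ∀ t : ℝ, HasDerivAt (fun t : ℝ => -α * (‖c‖ ^ 2 + 2 * inner ℝ c v * t + inner ℝ v v * t ^ 2))
        (-α * (2 * inner ℝ c v + inner ℝ v v * (2 * t))) t := fun t => by
      simpa using ((((hasDerivAt_id t).const_mul (2 * inner ℝ c v)).const_add (‖c‖ ^ 2)).add
        ((hasDerivAt_pow 2 t).const_mul (inner ℝ v v))).const_mul (-α)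
    have := test (g := fun t => w (q + t • v)) (l1.mono fun t ht => by
      simp only [w, e]; exact ht.add (((d1 t).exp.sub_const _).const_mul ε))
      (l2.add (((d1 0).exp.mul (((((hasDerivAt_id (0 : ℝ)).const_mul 2).const_mul (inner ℝ v v)).const_add
        (2 * inner ℝ c v)).const_mul (-α))).const_mul ε))
      (IsLocalMax.comp_continuous (f := w) (g := fun t : ℝ => q + t • v) (b := 0)
        (by simpa using q5) (by fun_prop))
    simp only [zero_smul, add_zero, mul_zero, ne_eq, OfNat.ofNat_ne_zero, not_false_eq_true,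
      zero_pow, id, Pi.add_apply, Pi.mul_apply] at this
    exact ⟨this.1, le_of_eq_of_le (by ring) this.2⟩
  let ι : E m →L[ℝ] E m →L[ℝ] ℝ := innerSL ℝ
  have hι : ∀ v w, ι v w = inner ℝ v w := fun _ _ => rfl
  have k1 := trace (h q (hδ q1).1).1 (fderiv ℝ (fderiv ℝ u) q + (ε * exp (-α * ‖c‖ ^ 2)) •
    ((4 * α ^ 2) • (ι c).smulRight (ι c) - (2 * α) • ι)) fun v => by
      refine le_of_eq_of_le ?_ (key v).2
      simp only [add_apply, smul_apply, sub_apply, ContinuousLinearMap.smulRight_apply, hι, smul_eq_mul]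
      ring
  have k2 := (key (b q)).1
  have k3 := (h q (hδ q1).1).2
  have k4 := mul_pos (mul_pos ε0 (exp_pos (-α * ‖c‖ ^ 2))) (show 0 < Q α q from (hδ q1).2)
  simp only [Q, mul_sub _ (∑ _, _), Finset.mul_sum] at k4
  simp only [add_apply, mul_add, Finset.sum_add_distrib] at k1
  unfold Kills at k3
  refine absurd (add_le_add k1 k2.le) (not_le.2 (lt_of_lt_of_eq ((add_zero _).trans_lt k4) ?_))
  rw [add_add_add_comm, k3, zero_add, sub_eq_add_neg]
  congr 1
  · refine Finset.sum_congr rfl fun i _ => Finset.sum_congr rfl fun j _ => ?_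
    simp [hι, EuclideanSpace.inner_single_right, c, eq_comm]; ring
  · ring

lemma proj_eq {p q : ℝ × ℝ} (h : proj p = proj q) : ∃ j k : ℤ, p.1 = q.1 + j ∧ p.2 = q.2 + k := by
  obtain ⟨h1, h2⟩ := Prod.ext_iff.1 h
  obtain ⟨j, hj⟩ := QuotientAddGroup.eq.1 h1.symm
  obtain ⟨k, hk⟩ := QuotientAddGroup.eq.1 h2.symm
  exact ⟨j, k, by simp at hj; linarith, by simp at hk; linarith⟩

lemma noHarm (M : Type) [TopologicalSpace M] [ChartedSpace (E m) M] [CompactSpace M]
    [ConnectedSpace M] (φ : M → T) (h : Harm m φ) (hV : range φ ⊆ range fun t => proj (t, √2 * t))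
    (x y : M) : φ x = φ y := by
  choose t ht using fun x => hV ⟨x, rfl⟩
  have loc : ∀ x : M, ContinuousAt t x ∧ ((∀ z, t z ≤ t x) → ∀ᶠ z in 𝓝 x, t z = t x) := fun x => by
    obtain ⟨U, u, v, a, b, hU, hx, -, hu, hv, ha, hb, h⟩ := h x
    obtain ⟨r, r0, hr⟩ := Metric.isOpen_iff.1 hU _ hx
    choose! j k hj hk using fun y (hy : y ∈ U) => proj_eq ((h y hy).1.symm.trans (ht _).symm)
    have e : ∀ y ∈ U, v y - √2 * u y = k y - √2 * j y := fun y hy => by
      rw [show u y = _ from hj y hy, show v y = _ from hk y hy]; ring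
    have sub : ((fun y => v y - √2 * u y) '' ball (chartAt (E m) x x) r).Subsingleton :=
      (countable_range fun n : ℤ × ℤ => (n.2 : ℝ) - √2 * n.1).isTotallyDisconnected _
        (by rintro _ ⟨y, hy, rfl⟩; exact ⟨(j y, k y), (e y (hr hy)).symm⟩)
        ((convex_ball _ r).isPreconnected.image _
          ((hv.continuousOn.sub (continuousOn_const.mul hu.continuousOn)).mono hr))
    have e2 : ∀ y ∈ ball (chartAt (E m) x x) r, u y = t ((chartAt (E m) x).symm y) +
        j (chartAt (E m) x x) := fun y hy => by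
      rw [show u y = _ from hj y (hr hy)]
      by_contra hne
      have := sub ⟨y, hy, rfl⟩ ⟨_, mem_ball_self r0, rfl⟩
      simp only [e y (hr hy), e _ hx] at this
      refine (irrational_sqrt_two.mul_intCast (m := j y - j (chartAt (E m) x x)) fun h0 => hne ?_).ne_int
        (k y - k (chartAt (E m) x x)) (by push_cast; linarith)
      rw [sub_eq_zero.1 h0]
    have cx := (chartAt (E m) x).continuousAt (mem_chart_source _ x)
    have e3 : ∀ᶠ z in 𝓝 x, u (chartAt (E m) x z) - j (chartAt (E m) x x) = t z := by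
      filter_upwards [cx.eventually (ball_mem_nhds _ r0), chart_source_mem_nhds (E m) x] with z h1 h2
      rw [e2 _ h1, (chartAt (E m) x).left_inv h2, add_sub_cancel_right]
    refine ⟨(((hu.continuousOn.continuousAt (hU.mem_nhds hx)).comp cx).sub continuousAt_const).congr e3,
      fun hm => ?_⟩
    filter_upwards [e3, cx.eventually (hopf isOpen_ball (hu.mono hr) (ha.mono hr) (hb.mono hr)
      (fun y hy => ⟨(h y (hr hy)).2.1, (h y (hr hy)).2.2.1⟩) (mem_ball_self r0) fun y hy => by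
        rw [e2 y hy, ← sub_eq_iff_eq_add.1 e3.self_of_nhds.symm.symm |>.symm]
        exact add_le_add_left (hm _) _)] with z h1 h2
    rw [← h1, h2, e3.self_of_nhds]
  have ct : Continuous t := continuous_iff_continuousAt.2 fun x => (loc x).1
  obtain ⟨x0, -, h0⟩ := isCompact_univ.exists_isMaxOn ⟨x, mem_univ x⟩ ct.continuousOn
  have := IsClopen.eq_univ (s := {z | t z = t x0}) ⟨isClosed_eq ct continuous_const,
    isOpen_iff_mem_nhds.2 fun z hz => by
      filter_upwards [(loc z).2 fun w => (h0 (mem_univ w)).trans_eq (Eq.symm hz)] with w hw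
      exact Eq.trans hw hz⟩ ⟨x0, rfl⟩
  rw [← ht, ← ht, show t x = _ from this.ge (mem_univ x), show t y = _ from this.ge (mem_univ y)]

lemma noConvex : ¬ HasConvex (range fun t => proj (t, √2 * t)) := by
  rintro ⟨W, f, hW, hV, hf, h⟩
  have cp : Continuous proj := by unfold proj; fun_prop
  have e : ∀ t : ℝ, (0 : ℝ × ℝ) + t • ((1 : ℝ), √2) = (t, √2 * t) := fun t => by simp [mul_comm]
  have mem : ∀ t : ℝ, (0 : ℝ × ℝ) + t • ((1 : ℝ), √2) ∈ proj ⁻¹' W := fun t => e t ▸ hV ⟨t, rfl⟩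
  have cd := fun t => hf.contDiffAt ((hW.preimage cp).mem_nhds (mem t))
  have l := fun t => line 0 ((1 : ℝ), √2) t (cd t)
  set g := fun t : ℝ => (f ∘ proj) (0 + t • ((1 : ℝ), √2))
  have sc : StrictConvexOn ℝ univ g := strictConvexOn_univ_of_deriv2_pos
    (continuous_iff_continuousAt.2 fun t => (l t).1.self_of_nhds.continuousAt) fun t => by
      rw [Function.iterate_succ_apply', Function.iterate_one,
        show deriv g = _ from funext fun t => (l t).1.self_of_nhds.deriv, (l t).2.deriv]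
      exact h _ (mem t) _ (by simp)
  have k0 : g 0 < (1 / 2) * g 1 + (1 / 2) * g (-1) := by
    simpa using sc.2 (mem_univ 1) (mem_univ (-1)) (by norm_num) one_half_pos one_half_pos (by norm_num)
  have c0 : ContinuousAt (fun s : ℝ => (f ∘ proj) (0, s) + (f ∘ proj) (0, -s)) 0 := by
    have : ContinuousAt (f ∘ proj) (0, 0) := by
      have := (cd 0).continuousAt
      rwa [e, mul_zero] at this
    exact (this.comp_of_eq (by fun_prop) rfl).add (this.comp_of_eq (by fun_prop) (by simp))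
  obtain ⟨δ, δ0, hδ⟩ := Metric.eventually_nhds_iff.1 (c0.eventually (gt_mem_nhds
    (show _ < g 1 + g (-1) by
      have : (f ∘ proj) (0, 0) = g 0 := by simp only [g, e, mul_zero]
      simp only [neg_zero, this]; linarith)))
  obtain ⟨n, hn⟩ := exists_nat_one_div_lt δ0
  obtain ⟨j, k, k1, -, hk⟩ := Real.exists_int_int_abs_mul_sub_le √2 n.succ_pos
  have := hδ (y := k * √2 - j) (by
    rw [dist_zero_right]; refine hk.trans_lt (lt_of_le_of_lt ?_ hn); gcongr; simp)
  have z : ∀ i : ℤ, ((i : ℝ) : UnitAddCircle) = 0 := fun i =>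
    (AddCircle.coe_eq_zero_iff _).2 ⟨i, by simp⟩
  have p1 : proj (0, k * √2 - j) = proj (0 + (k : ℝ) • ((1 : ℝ), √2)) := by simp [proj, z]
  have p2 : proj (0, -(k * √2 - j)) = proj (0 + (-k : ℝ) • ((1 : ℝ), √2)) := by simp [proj, z]
  have k2 : (1 : ℝ) ≤ k := by exact_mod_cast k1
  have k3 : (0 : ℝ) < k := by linarith
  have a1 := sc.convexOn.2 (mem_univ (k : ℝ)) (mem_univ (-k : ℝ))
    (show (0 : ℝ) ≤ (k + 1) / (2 * k) by positivity)
    (show (0 : ℝ) ≤ (k - 1) / (2 * k) from div_nonneg (by linarith) (by positivity)) (by field_simp; ring)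
  have a2 := sc.convexOn.2 (mem_univ (k : ℝ)) (mem_univ (-k : ℝ))
    (show (0 : ℝ) ≤ (k - 1) / (2 * k) from div_nonneg (by linarith) (by positivity))
    (show (0 : ℝ) ≤ (k + 1) / (2 * k) by positivity) (by field_simp; ring)
  simp only [smul_eq_mul] at a1 a2
  rw [show (k + 1) / (2 * k) * k + (k - 1) / (2 * k) * -k = (1 : ℝ) by field_simp; ring] at a1
  rw [show (k - 1) / (2 * k) * k + (k + 1) / (2 * k) * -k = (-1 : ℝ) by field_simp; ring] at a2
  simp only [Function.comp, p1, p2] at this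
  have : g k + g (-k) < g 1 + g (-1) := this
  have e : (k + 1) / (2 * k) * g k + (k - 1) / (2 * k) * g (-k) + ((k - 1) / (2 * k) * g k +
    (k + 1) / (2 * k) * g (-k)) = g k + g (-k) := by field_simp; ring
  linarith

theorem result : ∃ V : Set T,
    (∀ (m : ℕ) (M : Type) [TopologicalSpace M] [ChartedSpace (E m) M] [IsManifold 𝓘(ℝ, E m) ∞ M]
      [T2Space M] [CompactSpace M] [ConnectedSpace M] (φ : M → T),
      Harm m φ → range φ ⊆ V → ∀ x y, φ x = φ y) ∧ ¬ HasConvex V :=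
  ⟨_, fun _ M _ _ _ _ _ _ => noHarm M, noConvex⟩

end Pool.Agent.Results.MP_267b52_gt.DenseLine
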